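import Pool.Agent.helper70.LZ.SpecZ

/-!
# Row lz:ZAG (MP_baa4d7_al, project LE, BOUND-Z): the numbers `A_g`
-/

set_option autoImplicit false

namespace Pool.Agent.LE

open Pool.Agent.helper58.DC Pool.Agent.DI Pool.Agent.GR Pool.Agent.OB Pool.Agent.DR Pool.Agent.FI Pool.Agent.FI3 Pool.Agent.FI4

section

variable {G : Type} [Group G]

/-- roots of unity of `p`-power order are congruent to `1` modulo `M` -/
theorem ZAG_rou {p : ℕ} {M : Ideal (integralClosure ℤ ℂ)} (hS : Setup p M) {l : ℂ} (hl : IsIntegral ℤ l) {k : ℕ}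
    (h : l ^ p ^ k = 1) : InM M (l - 1) := by
  have := hS.prime
  have : Fact p.Prime := ⟨hS.pr⟩
  have : CharP (integralClosure ℤ ℂ ⧸ M) p := by
    rw [CharP.charP_iff_prime_eq_zero hS.pr]
    have h1 : ((p : ℕ) : integralClosure ℤ ℂ ⧸ M) = Ideal.Quotient.mk M (p : integralClosure ℤ ℂ) := (map_natCast _ _).symm
    rw [h1]
    exact Ideal.Quotient.eq_zero_iff_mem.2 hS.mem
  have ha : (⟨l, hl⟩ : integralClosure ℤ ℂ) ^ p ^ k = 1 := Subtype.ext (by simpa using h)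
  have h2 : (Ideal.Quotient.mk M (⟨l, hl⟩ : integralClosure ℤ ℂ) - 1) ^ p ^ k = 0 := by
    rw [sub_pow_char_pow, ← map_pow, ha, map_one, one_pow, sub_self]
  have h3 : Ideal.Quotient.mk M (⟨l, hl⟩ : integralClosure ℤ ℂ) - 1 = 0 := eq_zero_of_pow_eq_zero h2
  have h4 : (⟨l, hl⟩ - 1 : integralClosure ℤ ℂ) ∈ M := by
    rw [← Ideal.Quotient.eq_zero_iff_mem, map_sub, map_one]
    exact h3
  have h5 := InM.coe hS h4
  have h6 : ((⟨l, hl⟩ - 1 : integralClosure ℤ ℂ) : ℂ) = l - 1 := by push_cast; rfl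
  rwa [h6] at h5

theorem ZAG_mem {z y : G} : y ∈ Cz (⊤ : Subgroup G) z ↔ z * y = y * z := by
  unfold Cz
  rw [top_inf_eq, Subgroup.mem_centralizer_iff]
  exact ⟨fun h => h z rfl, fun h w hw => by rw [Set.mem_singleton_iff.1 hw]; exact h⟩

theorem ZAG_conj {K : Subgroup G} {h v : G} (hh : h ∈ K) : h * v * h⁻¹ ∈ K ↔ v ∈ K := by
  constructor
  · intro h3
    have h4 := K.mul_mem (K.mul_mem (K.inv_mem hh) h3) hh
    have h5 : h⁻¹ * (h * v * h⁻¹) * h = v := by group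
    rwa [h5] at h4
  · intro h3
    exact K.mul_mem (K.mul_mem hh h3) (K.inv_mem hh)

theorem ZAG_reg {p : ℕ} {h v : G} : PReg p (h * v * h⁻¹) ↔ PReg p v := by
  unfold PReg
  have h1 : orderOf (h * v * h⁻¹) = orderOf v := by
    have h2 := orderOf_injective (MulAut.conj h).toMonoidHom (MulAut.conj h).injective v
    have h3 : (MulAut.conj h).toMonoidHom v = h * v * h⁻¹ := rfl
    rwa [h3] at h2
  rw [h1]

theorem ZAG_CF {p : ℕ} {K : Subgroup G} {η : G → ℂ} (hη : ∀ h ∈ K, ∀ x, η (h * x * h⁻¹) = η x) : CF K (kap p K η) := by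
  classical
  refine ⟨fun h hh v => ?_, fun v hv => ?_⟩
  · unfold kap
    rw [ZAG_conj hh, ZAG_reg]
    have h1 : η (h * v * h⁻¹)⁻¹ = η v⁻¹ := by
      have h2 : (h * v * h⁻¹)⁻¹ = h * v⁻¹ * h⁻¹ := by group
      rw [h2, hη h hh]
    rw [h1]
  · unfold kap
    exact if_neg fun h => hv h.1

theorem ZAG_int {p : ℕ} {K : Subgroup G} {η : G → ℂ} (hη : ∀ x, IsIntegral ℤ (η x)) (x : G) : IsIntegral ℤ (kap p K η x) := by
  classical
  unfold kap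
  split_ifs
  · exact hη _
  · exact isIntegral_zero

/-- translation by the central element `z` -/
theorem ZAG_CFz {K : Subgroup G} {f : G → ℂ} (hf : CF K f) {z : G} (hz : z ∈ K) (hzc : ∀ h ∈ K, z * h = h * z) :
    CF K (fun y => f (z⁻¹ * y)) := by
  refine ⟨fun h hh y => ?_, fun y hy => ?_⟩
  · have h1 : z⁻¹ * (h * y * h⁻¹) = h * (z⁻¹ * y) * h⁻¹ := by
      have h2 : z⁻¹ * h = h * z⁻¹ := by
        have h3 := hzc h hh
        calc z⁻¹ * h = z⁻¹ * (h * z) * z⁻¹ := by group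
          _ = z⁻¹ * (z * h) * z⁻¹ := by rw [h3]
          _ = h * z⁻¹ := by group
      calc z⁻¹ * (h * y * h⁻¹) = (z⁻¹ * h) * y * h⁻¹ := by group
        _ = (h * z⁻¹) * y * h⁻¹ := by rw [h2]
        _ = h * (z⁻¹ * y) * h⁻¹ := by group
    show f (z⁻¹ * (h * y * h⁻¹)) = f (z⁻¹ * y)
    rw [h1, hf.1 h hh]
  · refine hf.2 _ fun h => hy ?_
    have h1 := K.mul_mem hz h
    rwa [mul_inv_cancel_left] at h1

/-- the values at the powers of a central element -/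
theorem ZAG_pow (hQCE : QCE_stmt) [Finite G] {K : Subgroup G} {z : G} (hz : z ∈ K) (hc : Cen K z) {ψ : G → ℂ} (hψ : ψ ∈ IrrOn K) (h1 : ψ 1 ≠ 0)
    (n : ℕ) : ψ (z ^ n) = (ψ z / ψ 1) ^ n * ψ 1 := by
  induction n with
  | zero => simp
  | succ n ih =>
    have h2 := (hQCE G K z hz hc ψ hψ).1 (z ^ n)
    rw [ih] at h2
    rw [pow_succ' z n]
    have h3 : ψ (z * z ^ n) * ψ 1 = ((ψ z / ψ 1) ^ (n + 1) * ψ 1) * ψ 1 := by
      rw [h2, pow_succ]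
      field_simp
    exact mul_right_cancel₀ h1 h3

/-- `cc ψ (kap (z⁻¹ ·)) = (ψ z / ψ 1) * cc ψ kap` -/
theorem ZAG_cz (hQCE : QCE_stmt) [Finite G] {K : Subgroup G} {z : G} (hz : z ∈ K) (hc : Cen K z) {ψ : G → ℂ} (hψ : ψ ∈ IrrOn K) (h1 : ψ 1 ≠ 0)
    (f : G → ℂ) : cc ψ (fun y => f (z⁻¹ * y)) = (ψ z / ψ 1) * cc ψ f := by
  have := Fintype.ofFinite G
  unfold cc
  rw [finsum_eq_sum_of_fintype, finsum_eq_sum_of_fintype, ← Equiv.sum_comp (Equiv.mulLeft z), mul_div_assoc', Finset.mul_sum]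
  congr 1
  refine Finset.sum_congr rfl fun v _ => ?_
  have h2 := (hQCE G K z hz hc ψ hψ).1 v
  have h4 : ψ (z * v) = ψ z / ψ 1 * ψ v := by
    field_simp
    exact h2
  show f (z⁻¹ * (z * v)) * ψ (z * v) = ψ z / ψ 1 * (f v * ψ v)
  rw [inv_mul_cancel_left, h4]
  ring

theorem ZAG_EE [Finite G] {p : ℕ} {K : Subgroup G} {ψ η : G → ℂ} (h : EE p K ψ η = 0) : cc ψ (kap p K η) = 0 := by
  classical
  have h1 : (∑ᶠ v ∈ {v : G | v ∈ K ∧ PReg p v}, ψ v * η v⁻¹) = 0 := by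
    unfold EE at h
    rcases div_eq_zero_iff.1 h with h | h
    · exact h
    · exfalso
      have h2 : (Nat.card K : ℂ) ≠ 0 := by exact_mod_cast Nat.card_pos.ne'
      exact h2 h
  have h2 : ∑ᶠ v, kap p K η v * ψ v = ∑ᶠ v ∈ {v : G | v ∈ K ∧ PReg p v}, ψ v * η v⁻¹ := by
    rw [finsum_mem_def]
    refine finsum_congr fun v => ?_
    unfold kap
    by_cases hv : v ∈ K ∧ PReg p v
    · rw [if_pos hv, Set.indicator_of_mem (show v ∈ {v : G | v ∈ K ∧ PReg p v} from hv)]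
      ring
    · rw [if_neg hv, Set.indicator_of_notMem (show v ∉ {v : G | v ∈ K ∧ PReg p v} from hv)]
      ring
  unfold cc
  rw [h2, h1, zero_div]

end

theorem ZAG (hZTH : ZTH_stmt) (hEXB : EXB_stmt) (hSBI : SBI_stmt) (hQEI : QEI_stmt) (hQCE : QCE_stmt) (hFEQ : FEQ_stmt)
    (hB2 : B2_stmt) (hC3 : C3_stmt) : ZAG_stmt := by
  classical
  intro p M hS G _ _ D x θ χ lo z hz η₀ hη₀ g
  have hzK : z ∈ Cz (⊤ : Subgroup G) z := ZAG_mem.2 rfl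
  have hzc : ∀ h ∈ Cz (⊤ : Subgroup G) z, z * h = h * z := fun h hh => ZAG_mem.1 hh
  have hcen : Cen (Cz (⊤ : Subgroup G) z) z := fun l hl => (hzc l hl).symm
  have hpz : ∃ k : ℕ, z ^ p ^ k = 1 := by
    obtain ⟨k, hk⟩ := lo.rt.dfa.pgrp ⟨z, hz⟩
    exact ⟨k, by simpa using congrArg Subtype.val hk⟩
  have hkCF : CF (Cz (⊤ : Subgroup G) z) (kap p (Cz (⊤ : Subgroup G) z) η₀) := ZAG_CF fun h hh y => ((hB2 G _).2 η₀ hη₀.1).2.1 y h hh
  have hkint : ∀ y, IsIntegral ℤ (kap p (Cz (⊤ : Subgroup G) z) η₀ y) := ZAG_int ((hB2 G _).2 η₀ hη₀.1).2.2.1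
  have hwCF := ZAG_CFz hkCF hzK hzc
  -- the element is outside of `D`
  have hout : g * z * g⁻¹ ∉ D → ag p (Cz (⊤ : Subgroup G) z) η₀ θ z g = 0 := by
    intro hgz
    unfold ag cc
    rw [finsum_eq_zero_of_forall_eq_zero, zero_div]
    intro y
    by_cases hv : z⁻¹ * (g⁻¹ * y * g) ∈ Cz (⊤ : Subgroup G) z ∧ PReg p (z⁻¹ * (g⁻¹ * y * g))
    · by_cases hy : y ∈ cz D
      · obtain ⟨v, hvdef⟩ : ∃ v, v = z⁻¹ * (g⁻¹ * y * g) := ⟨_, rfl⟩
        rw [← hvdef] at hv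
        have hyv : y = (g * z * g⁻¹) * (g * v * g⁻¹) := by rw [hvdef]; group
        have h1 : PEl p (g * z * g⁻¹) := by
          obtain ⟨k, hk⟩ := hpz
          exact ⟨k, by rw [conj_pow, hk]; group⟩
        have h2 : PReg p (g * v * g⁻¹) := ZAG_reg.2 hv.2
        have h3 : (g * z * g⁻¹) * (g * v * g⁻¹) = (g * v * g⁻¹) * (g * z * g⁻¹) := by
          have h4 := hzc v hv.1
          calc (g * z * g⁻¹) * (g * v * g⁻¹) = g * (z * v) * g⁻¹ := by group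
            _ = g * (v * z) * g⁻¹ := by rw [h4]
            _ = (g * v * g⁻¹) * (g * z * g⁻¹) := by group
        have h5 := hZTH p M hS G D x θ χ lo (g * z * g⁻¹) (g * v * g⁻¹) h1 h2 h3 (by rw [← hyv]; exact hy) hgz θ ⟨lo.rt.th, SB.refl _ _⟩
        rw [← hyv] at h5
        rw [h5, mul_zero]
      · rw [lo.rt.th.1 y hy, mul_zero]
    · have h1 : kap p (Cz (⊤ : Subgroup G) z) η₀ (z⁻¹ * (g⁻¹ * y * g)) = 0 := by
        unfold kap
        exact if_neg hv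
      show kap p (Cz (⊤ : Subgroup G) z) η₀ (z⁻¹ * (g⁻¹ * y * g)) * θ y = 0
      rw [h1, zero_mul]
  -- the element is in `D`
  have hin : g * z * g⁻¹ ∈ D → ∃ ψ' ∈ IrrOn (Cz (⊤ : Subgroup G) z), SB M (Cz (⊤ : Subgroup G) z) (cjF g⁻¹ θ) ψ' ∧
      InM M (ag p (Cz (⊤ : Subgroup G) z) η₀ θ z g - (ψ' z / ψ' 1) * cc ψ' (kap p (Cz (⊤ : Subgroup G) z) η₀)) := by
    intro hgz
    obtain ⟨-, ⟨f1, -⟩, -, f2, -⟩ := hFEQ G M g⁻¹ 1 D D (cz D) θ θ θ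
    have hzQ : z ∈ cjS g⁻¹ D := by
      rw [mem_cjS, inv_inv]
      exact hgz
    have hczQ : cz (cjS g⁻¹ D) ≤ Cz (⊤ : Subgroup G) z := by
      intro y hy
      rw [Subgroup.mem_centralizer_iff] at hy
      exact ZAG_mem.2 (hy z hzQ)
    have hQK : cjS g⁻¹ D ≤ Cz (⊤ : Subgroup G) z := by
      intro q hq
      rw [mem_cjS, inv_inv] at hq
      have h1 := lo.rt.com _ hgz _ hq
      rw [ZAG_mem]
      calc z * q = g⁻¹ * ((g * z * g⁻¹) * (g * q * g⁻¹)) * g := by group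
        _ = g⁻¹ * ((g * q * g⁻¹) * (g * z * g⁻¹)) * g := by rw [h1]
        _ = q * z := by group
    have hpQ : IsPGroup p (cjS g⁻¹ D) := lo.rt.dfa.pgrp.map _
    have hθ' : cjF g⁻¹ θ ∈ IrrOn (Cz (⊤ : Subgroup G) z ⊓ cz (cjS g⁻¹ D)) := by
      rw [inf_eq_right.2 hczQ, f1]
      exact f2.1 lo.rt.th
    obtain ⟨ψ', hψ', hsb⟩ := hEXB p M hS G (Cz (⊤ : Subgroup G) z) (cjS g⁻¹ D) hpQ hQK (cjF g⁻¹ θ) hθ'
    refine ⟨ψ', hψ', hsb, ?_⟩
    have h1 : ag p (Cz (⊤ : Subgroup G) z) η₀ θ z g = cc (cjF g⁻¹ θ) (fun y => kap p (Cz (⊤ : Subgroup G) z) η₀ (z⁻¹ * y)) := by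
      unfold cjF
      rw [cc_funMap]
      unfold ag
      rw [inv_inv]
    have hne : ψ' 1 ≠ 0 := by
      obtain ⟨n, hn, he, -⟩ := ((hB2 G _).2 ψ' hψ').1
      rw [he]
      exact_mod_cast hn.ne'
    rw [h1, ← ZAG_cz hQCE hzK hcen hψ' hne]
    exact (hSBI p M hS G _ _ _ hsb).1 _ hwCF fun y => IntAt.of_isIntegral hS (hkint _)
  refine ⟨fun h => ?_, fun hgz hsb' => ?_⟩
  · by_cases hgz : g * z * g⁻¹ ∈ D
    · have hnsb := h.resolve_left (not_not.2 hgz)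
      obtain ⟨ψ', hψ', hsb, hm⟩ := hin hgz
      have h1 : ψ' ∉ Bl M (Cz (⊤ : Subgroup G) z) θ := fun h => hnsb (hsb.trans h.2)
      obtain ⟨-, q2, -, -⟩ := hQEI p M hS G (Cz (⊤ : Subgroup G) z) (Bl M (Cz (⊤ : Subgroup G) z) θ) (Q1_BC M _ 1 θ).1
      have h2 := (q2 η₀ hη₀ ψ' hψ' h1).2
      rw [ZAG_EE h2, mul_zero, sub_zero] at hm
      exact hm
    · rw [hout hgz]
      exact InM.zero hS
  · obtain ⟨ψ', hψ', hsb, hm⟩ := hin hgz
    have h1 : SB M (Cz (⊤ : Subgroup G) z) ψ' θ := hsb.symm.trans hsb'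
    have h2 := (hSBI p M hS G _ _ _ h1).1 _ hkCF fun y => IntAt.of_isIntegral hS (hkint _)
    obtain ⟨k, hk⟩ := hpz
    have hne : ψ' 1 ≠ 0 := by
      obtain ⟨n, hn, he, -⟩ := ((hB2 G _).2 ψ' hψ').1
      rw [he]
      exact_mod_cast hn.ne'
    have h3 : (ψ' z / ψ' 1) ^ p ^ k = 1 := by
      have h4 := ZAG_pow hQCE hzK hcen hψ' hne (p ^ k)
      rw [hk] at h4
      exact mul_right_cancel₀ hne (by rw [← h4, one_mul])
    have h5 : InM M (ψ' z / ψ' 1 - 1) := ZAG_rou hS (hQCE G _ z hzK hcen ψ' hψ').2.2 h3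
    have h6 : IntAt M (cc ψ' (kap p (Cz (⊤ : Subgroup G) z) η₀)) :=
      IntAt.of_isIntegral hS ((hC3 G).1 _ ψ' hψ' _ hkCF.1 hkint)
    have h7 := InM.add hS (InM.add hS hm (InM.mul_right hS h5 h6)) h2
    have h8 : ag p (Cz (⊤ : Subgroup G) z) η₀ θ z g - (ψ' z / ψ' 1) * cc ψ' (kap p (Cz (⊤ : Subgroup G) z) η₀) +
        (ψ' z / ψ' 1 - 1) * cc ψ' (kap p (Cz (⊤ : Subgroup G) z) η₀) +
        (cc ψ' (kap p (Cz (⊤ : Subgroup G) z) η₀) - cc θ (kap p (Cz (⊤ : Subgroup G) z) η₀)) =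
        ag p (Cz (⊤ : Subgroup G) z) η₀ θ z g - cc θ (kap p (Cz (⊤ : Subgroup G) z) η₀) := by ring
    rwa [h8] at h7

end Pool.Agent.LE
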