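import Pool.Agent.helper70.LZ.SpecZ

/-!
# Row lz:ZNR (MP_baa4d7_al, project LE, BOUND-Z): the norm of the numbers `az ψ u`
-/

set_option autoImplicit false

namespace Pool.Agent.LE

open Pool.Agent.helper58.DC Pool.Agent.DI Pool.Agent.GR Pool.Agent.OB Pool.Agent.DR Pool.Agent.FI Pool.Agent.FI3 Pool.Agent.FI4

theorem ZNR_sw {α β : Type} (S : Finset β) (R : Finset α) (f g : α → ℂ) (A B : β → α → ℂ) :
    ∑ ψ ∈ S, (∑ v ∈ R, A ψ v * f v) * (∑ v' ∈ R, B ψ v' * g v') =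
      ∑ v ∈ R, ∑ v' ∈ R, f v * g v' * ∑ ψ ∈ S, A ψ v * B ψ v' := by
  have h1 : ∀ ψ ∈ S, (∑ v ∈ R, A ψ v * f v) * (∑ v' ∈ R, B ψ v' * g v') =
      ∑ v ∈ R, ∑ v' ∈ R, A ψ v * f v * (B ψ v' * g v') := fun ψ _ => Finset.sum_mul_sum _ _ _ _
  rw [Finset.sum_congr rfl h1, Finset.sum_comm]
  refine Finset.sum_congr rfl fun v _ => ?_
  rw [Finset.sum_comm]
  refine Finset.sum_congr rfl fun v' _ => ?_
  rw [Finset.mul_sum]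
  refine Finset.sum_congr rfl fun ψ _ => ?_
  ring

theorem ZNR (hBRY : BRY_stmt) (hBLE : BLE_stmt) (hQEI : QEI_stmt) (hSTC : STC_stmt) (hB2 : B2_stmt) : ZNR_stmt := by
  classical
  intro p M hS G _ _ θ u hu η₀ hη₀ hsb
  obtain ⟨hBC, -⟩ := hBLE p M hS G ⊤ (Cz ⊤ u) le_top θ
  obtain ⟨hQ1, -⟩ := hQEI p M hS G (Cz ⊤ u) (Bq M ⊤ (Cz ⊤ u) θ) hBC
  have hmem : η₀ ∈ Bq M ⊤ (Cz ⊤ u) θ := ⟨hη₀, hsb⟩
  have hfin1 : (Bl M (⊤ : Subgroup G) θ).Finite := (hB2 G ⊤).1.subset fun ψ h => h.1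
  have hfin2 : (Bq M (⊤ : Subgroup G) (Cz ⊤ u) θ).Finite := (hB2 G (Cz ⊤ u)).1.subset fun ψ h => h.1
  have hR : ({v : G | v ∈ Cz ⊤ u ∧ PReg p v}).Finite := Set.toFinite _
  have hRm : ∀ v, v ∈ hR.toFinset ↔ v ∈ Cz ⊤ u ∧ PReg p v := fun v => by
    rw [Set.Finite.mem_toFinset]
    rfl
  have key : ∀ v ∈ hR.toFinset, ∀ v' ∈ hR.toFinset, ∑ ψ ∈ hfin1.toFinset, ψ (u * v) * ψ (u * v')⁻¹ =
      ∑ η ∈ hfin2.toFinset, η v * η v'⁻¹ := by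
    intro v hv v' hv'
    rw [hRm] at hv hv'
    have h1 := hBRY p M hS G ⊤ u (Subgroup.mem_top u) hu θ v hv.1 v' hv'.1 hv.2 hv'.2
    unfold Sf at h1
    rw [finsum_mem_eq_finite_toFinset_sum _ hfin1, finsum_mem_eq_finite_toFinset_sum _ hfin2] at h1
    exact h1
  have haz : ∀ ψ : G → ℂ, az p (Cz (⊤ : Subgroup G) u) η₀ ψ u =
      (∑ v ∈ hR.toFinset, ψ (u * v) * η₀ v⁻¹) / Nat.card (Cz (⊤ : Subgroup G) u) := by
    intro ψ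
    unfold az
    rw [finsum_mem_eq_finite_toFinset_sum _ hR]
  have hEE : ∀ ψ ψ' : G → ℂ, EE p (Cz (⊤ : Subgroup G) u) ψ ψ' =
      (∑ v ∈ hR.toFinset, ψ v * ψ' v⁻¹) / Nat.card (Cz (⊤ : Subgroup G) u) := by
    intro ψ ψ'
    unfold EE
    rw [finsum_mem_eq_finite_toFinset_sum _ hR]
  have hc : ∀ ψ ∈ hfin1.toFinset, az p (Cz (⊤ : Subgroup G) u) η₀ ψ u * (starRingEnd ℂ) (az p (Cz (⊤ : Subgroup G) u) η₀ ψ u) =
      ((∑ v ∈ hR.toFinset, ψ (u * v) * η₀ v⁻¹) * (∑ v' ∈ hR.toFinset, ψ (u * v')⁻¹ * η₀ v')) /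
        (Nat.card (Cz (⊤ : Subgroup G) u) : ℂ) ^ 2 := by
    intro ψ hψ
    rw [Set.Finite.mem_toFinset] at hψ
    have h1 : (starRingEnd ℂ) (∑ v ∈ hR.toFinset, ψ (u * v) * η₀ v⁻¹) = ∑ v' ∈ hR.toFinset, ψ (u * v')⁻¹ * η₀ v' := by
      rw [map_sum]
      refine Finset.sum_congr rfl fun v _ => ?_
      rw [map_mul, ← hSTC G ⊤ ψ hψ.1, ← hSTC G _ η₀ hη₀, inv_inv]
    rw [haz, map_div₀, Complex.conj_natCast, h1]
    ring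
  have hd : ∀ η ∈ hfin2.toFinset, EE p (Cz (⊤ : Subgroup G) u) η₀ η * EE p (Cz (⊤ : Subgroup G) u) η η₀ =
      ((∑ v ∈ hR.toFinset, η v * η₀ v⁻¹) * (∑ v' ∈ hR.toFinset, η v'⁻¹ * η₀ v')) /
        (Nat.card (Cz (⊤ : Subgroup G) u) : ℂ) ^ 2 := by
    intro η _
    have h1 : ∑ v ∈ hR.toFinset, η₀ v * η v⁻¹ = ∑ v' ∈ hR.toFinset, η v'⁻¹ * η₀ v' :=
      Finset.sum_congr rfl fun v _ => mul_comm _ _
    rw [hEE, hEE, h1]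
    ring
  rw [finsum_mem_eq_finite_toFinset_sum _ hfin1, Finset.sum_congr rfl hc, ← Finset.sum_div,
    ZNR_sw hfin1.toFinset hR.toFinset (fun v => η₀ v⁻¹) (fun v' => η₀ v') (fun ψ v => ψ (u * v)) (fun ψ v' => ψ (u * v')⁻¹),
    ← hQ1 η₀ hmem η₀ hmem, finsum_mem_eq_finite_toFinset_sum _ hfin2, Finset.sum_congr rfl hd, ← Finset.sum_div,
    ZNR_sw hfin2.toFinset hR.toFinset (fun v => η₀ v⁻¹) (fun v' => η₀ v') (fun η v => η v) (fun η v' => η v'⁻¹)]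
  congr 1
  refine Finset.sum_congr rfl fun v hv => Finset.sum_congr rfl fun v' hv' => ?_
  rw [key v hv v' hv']

end Pool.Agent.LE
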